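import Pool.Agent.helper65.SV.SpecE

set_option autoImplicit false

namespace Pool.Agent.SV

theorem PC1_ind {Γ : Type} [Fintype Γ] [DecidableEq Γ] (B : Finset Γ) :
    ∑ x, (if x ∈ B then (1 : ℤ) else 0) = B.card := by
  rw [Finset.sum_ite_mem, Finset.univ_inter, Finset.sum_const, nsmul_eq_mul, mul_one]

/-- PC1 -/
theorem PC1 (hPSP : PSP_stmt) (hPCA : PCA_stmt) (hPCG : PCG_stmt) (hPNB : PNB_stmt) : PC1_stmt := by
  intro K _ _ n hK hn hor r₀
  obtain ⟨_, hN1, _, _⟩ := hPNB K n
  have hclos := hPCG K n hK hn hor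
  set v : ℕ := Fintype.card (Cell n) with hv
  have hvpos : 0 < v := Fintype.card_pos
  set D : ℕ := ∑ i, n i + 2 with hD
  set q : ℕ := r₀ * D / v with hq
  have hmodlt : r₀ * D % v < v := Nat.mod_lt _ hvpos
  obtain ⟨B, -, hB⟩ := Finset.exists_subset_card_eq (s := (Finset.univ : Finset (Cell n)))
    (n := r₀ * D % v) (by rw [Finset.card_univ]; exact hmodlt.le)
  set u : Cell n → ℤ := fun x => ((q : ℤ) + if x ∈ B then 1 else 0) -
    ((r₀ : ℤ) * ((if hammingDist 0 x ≤ 1 then 1 else 0) + if x = 0 then 1 else 0)) with hu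
  have husum : ∑ x, u x = 0 := by
    simp only [hu]
    rw [Finset.sum_sub_distrib, Finset.sum_add_distrib, ← Finset.mul_sum, Finset.sum_add_distrib,
      PC1_ind, hB]
    have h1 : ∑ x : Cell n, (if hammingDist 0 x ≤ 1 then (1 : ℤ) else 0) = ∑ i, (n i : ℤ) + 1 := by
      rw [Finset.sum_boole, hN1 0]
      push_cast
      ring
    have h2 : ∑ x : Cell n, (if x = 0 then (1 : ℤ) else 0) = 1 := by
      rw [Finset.sum_ite_eq' Finset.univ (0 : Cell n) (fun _ => (1 : ℤ)), if_pos (Finset.mem_univ _)]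
    rw [h1, h2, Finset.sum_const, Finset.card_univ, ← hv, nsmul_eq_mul]
    have h3 : (v : ℤ) * (q : ℤ) + ((r₀ * D % v : ℕ) : ℤ) = (r₀ : ℤ) * (∑ i, (n i : ℤ) + 2) := by
      have := Nat.div_add_mod (r₀ * D) v
      have h4 : ((v * (r₀ * D / v) + r₀ * D % v : ℕ) : ℤ) = ((r₀ * D : ℕ) : ℤ) := by rw [this]
      rw [Nat.cast_add, Nat.cast_mul, Nat.cast_mul r₀ D] at h4
      rw [hq, h4, hD]
      push_cast
      ring
    linear_combination h3
  obtain ⟨μ, hμS, hμu⟩ := hPSP (Cell n) (Adm n) u (by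
    intro x A hA
    have hAu : A = Finset.univ := by
      ext y
      rw [hA y, hclos]
      simp
    rw [hAu, husum])
  set M : Cell n → Cell n → ℤ := fun c γ => μ c γ +
    if γ = 0 then ((if c = 0 then (r₀ : ℤ) else 0) - ∑ γ', μ c γ') else 0 with hM
  have hMS : ∀ c γ, γ ∉ ({0} ∪ Adm n : Set (Cell n)) → M c γ = 0 := by
    intro c γ hγ
    have h1 : γ ≠ 0 := by
      rintro rfl
      exact hγ (Or.inl rfl)
    have h2 : γ ∉ Adm n := fun h => hγ (Or.inr h)
    simp only [hM]
    rw [if_neg h1, hμS c γ h2, add_zero]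
  have hMsum : ∀ c, ∑ γ, M c γ = if c = 0 then (r₀ : ℤ) else 0 := by
    intro c
    simp only [hM]
    rw [Finset.sum_add_distrib, Finset.sum_ite_eq' Finset.univ (0 : Cell n)
      (fun _ => ((if c = 0 then (r₀ : ℤ) else 0) - ∑ γ', μ c γ')), if_pos (Finset.mem_univ _)]
    ring
  obtain ⟨r, c, γ, A, hγ, hdvd, hwt⟩ := hPCA K n ({0} ∪ Adm n) M hMS
  refine ⟨r, c, γ, A + q, ?_, ?_, ?_⟩
  · intro l
    rcases hγ l with h | h
    · exact Or.inl h
    · exact Or.inr h
  · have h1 : ∑ c, ∑ γ, M c γ = (r₀ : ℤ) := by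
      simp_rw [hMsum]
      rw [Finset.sum_ite_eq' Finset.univ (0 : Cell n) (fun _ => (r₀ : ℤ)), if_pos (Finset.mem_univ _)]
    rw [h1] at hdvd
    have h2 : (r₀ : ℤ) ≡ (r : ℤ) [ZMOD (v : ℤ)] := Int.modEq_iff_dvd.mpr hdvd
    have h3 : r₀ ≡ r [MOD v] := by exact_mod_cast h2
    exact h3.symm
  · intro x
    have h1 := hwt x
    have h2 : ∑ c, ∑ γ, (if hammingDist c x ≤ 1 then M c γ else 0) =
        (r₀ : ℤ) * (if hammingDist 0 x ≤ 1 then 1 else 0) := by
      have h3 : ∀ c : Cell n, ∑ γ, (if hammingDist c x ≤ 1 then M c γ else 0) =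
          if c = 0 then (if hammingDist 0 x ≤ 1 then (r₀ : ℤ) else 0) else 0 := by
        intro c
        by_cases hc : hammingDist c x ≤ 1
        · simp only [if_pos hc]
          rw [hMsum c]
          by_cases h0 : c = 0
          · subst h0
            rw [if_pos rfl, if_pos rfl, if_pos hc]
          · rw [if_neg h0, if_neg h0]
        · simp only [if_neg hc]
          rw [Finset.sum_const_zero]
          by_cases h0 : c = 0
          · subst h0
            rw [if_pos rfl, if_neg hc]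
          · rw [if_neg h0]
      simp_rw [h3]
      rw [Finset.sum_ite_eq' Finset.univ (0 : Cell n), if_pos (Finset.mem_univ _)]
      split_ifs <;> ring
    have h4 : ∑ γ, M (x + γ) γ = (r₀ : ℤ) * (if x = 0 then 1 else 0) + u x := by
      rw [hμu x]
      simp only [hM]
      rw [Finset.sum_add_distrib, Finset.sum_ite_eq' Finset.univ (0 : Cell n)
        (fun γ => ((if x + γ = 0 then (r₀ : ℤ) else 0) - ∑ γ', μ (x + γ) γ')), if_pos (Finset.mem_univ _),
        Finset.sum_sub_distrib, add_zero]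
      split_ifs <;> ring
    rw [h2, h4] at h1
    have h5 : (wt c γ x : ℤ) = A + q + if x ∈ B then 1 else 0 := by
      rw [h1]
      simp only [hu]
      ring
    by_cases hxB : x ∈ B
    · right
      rw [if_pos hxB] at h5
      have : wt c γ x = A + q + 1 := by exact_mod_cast h5
      rw [this]
    · left
      rw [if_neg hxB, add_zero] at h5
      exact_mod_cast h5

end Pool.Agent.SV
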