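import Pool.Agent.helper65.SV.SpecE

set_option autoImplicit false

namespace Pool.Agent.SV

theorem PFI_om (N : ℕ) : om (N + 1) ^ (N + 1) = 1 := by
  have h : ((N + 1 : ℕ) : ℂ) ≠ 0 := by exact_mod_cast Nat.succ_ne_zero N
  exact (Complex.isPrimitiveRoot_exp (N + 1) (Nat.succ_ne_zero N)).pow_eq_one

theorem PFI_add (N : ℕ) (k : ℕ) (x y : ZMod (N + 1)) :
    om (N + 1) ^ (k * (x + y).val) = om (N + 1) ^ (k * x.val) * om (N + 1) ^ (k * y.val) := by
  have h1 : (om (N + 1) ^ k) ^ (N + 1) = 1 := by
    rw [← pow_mul, mul_comm, pow_mul, PFI_om, one_pow]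
  rw [pow_mul, pow_mul, pow_mul, ← pow_add, ZMod.val_add]
  exact (pow_eq_pow_mod _ h1).symm

theorem PFI_upd {K : Type} [Fintype K] [DecidableEq K] {n : K → ℕ} (F : Cell n → Polynomial ℂ)
    (χ : Cell n) (t : ℂ) (i : K) (b : ZMod (n i + 1)) :
    (hatF F (Function.update χ i b)).eval t = ∑ a : ZMod (n i + 1), om (n i + 1) ^ (b.val * a.val) *
      ∑ c : Cell n, (if c i = a then (∏ j ∈ Finset.univ.erase i, chy χ j (c j)) * (F c).eval t else 0) := by
  have h1 : ∀ c : Cell n, chr (Function.update χ i b) c = om (n i + 1) ^ (b.val * (c i).val) *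
      ∏ j ∈ Finset.univ.erase i, chy χ j (c j) := by
    intro c
    unfold chr
    rw [← Finset.mul_prod_erase Finset.univ _ (Finset.mem_univ i)]
    congr 1
    · unfold chy
      rw [Function.update_self]
    · refine Finset.prod_congr rfl fun j hj => ?_
      have hji : j ≠ i := Finset.ne_of_mem_erase hj
      unfold chy
      rw [Function.update_of_ne hji]
  unfold hatF
  rw [Polynomial.eval_finset_sum]
  simp_rw [Finset.mul_sum]
  rw [Finset.sum_comm]
  refine Finset.sum_congr rfl fun c _ => ?_
  rw [Polynomial.eval_mul, Polynomial.eval_C, h1 c, Finset.sum_eq_single (c i)]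
  · rw [if_pos rfl]
    ring
  · intro a _ ha
    rw [if_neg (fun h => ha h.symm), mul_zero]
  · intro h
    exact absurd (Finset.mem_univ _) h

theorem PFI_near {K : Type} [Fintype K] [DecidableEq K] [Nonempty K] {n : K → ℕ} (χ χ' : Cell n)
    (h : hammingDist χ χ' ≤ 1) : ∃ (i : K) (b : ZMod (n i + 1)), χ' = Function.update χ i b := by
  by_cases h0 : χ = χ'
  · obtain ⟨i⟩ := (inferInstance : Nonempty K)
    exact ⟨i, χ i, by rw [Function.update_eq_self, h0]⟩
  · obtain ⟨i, hi⟩ := Function.ne_iff.mp h0
    refine ⟨i, χ' i, ?_⟩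
    funext j
    by_cases hj : j = i
    · subst hj
      rw [Function.update_self]
    · rw [Function.update_of_ne hj]
      by_contra hne
      have h2 : 2 ≤ hammingDist χ χ' := by
        unfold hammingDist
        have hsub : ({i, j} : Finset K) ⊆ Finset.univ.filter (fun k => χ k ≠ χ' k) := by
          intro k hk
          rw [Finset.mem_insert, Finset.mem_singleton] at hk
          rw [Finset.mem_filter]
          rcases hk with rfl | rfl
          · exact ⟨Finset.mem_univ _, hi⟩
          · exact ⟨Finset.mem_univ _, fun h => hne h.symm⟩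
        calc 2 = ({i, j} : Finset K).card := (Finset.card_pair (fun h => hj h.symm)).symm
          _ ≤ _ := Finset.card_le_card hsub
      omega

/-- PFI -/
theorem PFI (hPCH : PCH_stmt) : PFI_stmt := by
  intro K _ _ _ n F χ t
  obtain ⟨_, _, _, _, _, _, hgeo⟩ := hPCH K n
  have hder : (Polynomial.derivative (hatF F χ)).eval t =
      ∑ c : Cell n, (∏ j, chy χ j (c j)) * (Polynomial.derivative (F c)).eval t := by
    unfold hatF
    rw [Polynomial.derivative_sum, Polynomial.eval_finset_sum]
    refine Finset.sum_congr rfl fun c _ => ?_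
    rw [Polynomial.derivative_C_mul, Polynomial.eval_mul, Polynomial.eval_C]
    rfl
  unfold SingAt
  rw [hder]
  refine and_congr ⟨?_, ?_⟩ Iff.rfl
  · intro h χ' hχ'
    obtain ⟨i, b, rfl⟩ := PFI_near χ χ' hχ'
    rw [PFI_upd]
    refine Finset.sum_eq_zero fun a _ => ?_
    rw [h i a, mul_zero]
  · intro h i a
    set A : ZMod (n i + 1) → ℂ := fun a => ∑ c : Cell n,
      (if c i = a then (∏ j ∈ Finset.univ.erase i, chy χ j (c j)) * (F c).eval t else 0) with hA
    have h1 : ∀ b : ZMod (n i + 1), ∑ a, om (n i + 1) ^ (b.val * a.val) * A a = 0 := by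
      intro b
      have h2 := h (Function.update χ i b) (by
        unfold hammingDist
        calc (Finset.univ.filter (fun k => χ k ≠ Function.update χ i b k)).card
            ≤ ({i} : Finset K).card := Finset.card_le_card (by
              intro k hk
              rw [Finset.mem_filter] at hk
              rw [Finset.mem_singleton]
              by_contra hne
              exact hk.2 (by rw [Function.update_of_ne hne]))
          _ = 1 := Finset.card_singleton i)
      rw [PFI_upd] at h2
      exact h2
    have h3 : ∑ b : ZMod (n i + 1), om (n i + 1) ^ (b.val * (-a).val) *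
        ∑ a', om (n i + 1) ^ (b.val * a'.val) * A a' = ((n i + 1 : ℕ) : ℂ) * A a := by
      simp_rw [Finset.mul_sum]
      rw [Finset.sum_comm]
      have h4 : ∀ a' : ZMod (n i + 1), ∑ b : ZMod (n i + 1), om (n i + 1) ^ (b.val * (-a).val) *
          (om (n i + 1) ^ (b.val * a'.val) * A a') = if a' = a then ((n i + 1 : ℕ) : ℂ) * A a else 0 := by
        intro a'
        have h5 : ∀ b : ZMod (n i + 1), om (n i + 1) ^ (b.val * (-a).val) *
            (om (n i + 1) ^ (b.val * a'.val) * A a') = om (n i + 1) ^ ((a' + -a).val * b.val) * A a' := by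
          intro b
          rw [mul_comm (a' + -a).val b.val, PFI_add]
          ring
        simp_rw [h5]
        rw [← Finset.sum_mul, hgeo i (a' + -a)]
        by_cases haa : a' = a
        · subst haa
          rw [if_pos (by ring), if_pos rfl]
        · rw [if_neg (fun h => haa (by linear_combination h)), if_neg haa, zero_mul]
      simp_rw [h4]
      rw [Finset.sum_ite_eq' Finset.univ a (fun _ => ((n i + 1 : ℕ) : ℂ) * A a), if_pos (Finset.mem_univ _)]
    rw [Finset.sum_eq_zero (fun b _ => by rw [h1 b, mul_zero])] at h3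
    have h6 : ((n i + 1 : ℕ) : ℂ) ≠ 0 := by exact_mod_cast Nat.succ_ne_zero (n i)
    rcases mul_eq_zero.mp h3.symm with h7 | h7
    · exact absurd h7 h6
    · exact h7

end Pool.Agent.SV
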